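import Pool.Agent.U397.TM.FR

set_option autoImplicit false

/-! # The motivic monodromy conjecture at the origin for forms over products of generic matrices

Let `n_0 ≤ n_1 ≤ ⋯` be positive integers, `A_i`, `i < L`, generic matrices of the sizes
`n_i × n_{i+1}` (all entries are different variables, `Var n L`), and for `t < T` let `ℓ_t < L` and
`F_t = ∑_{r,c} y_{t,r,c} (A_0 A_1 ⋯ A_{ℓ_t})_{r,c}`, with further variables `y_{t,r,c}`, separate for
each `t`. Let `f = ∏ t, F_t ^ a_t`, `a_t ≥ 1` (`form`, with integral coefficients). For `T = 1`, `a = 1`, `ℓ = L - 1` this is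
`tr (Y A_0 A_1 ⋯ A_{L-1})`, `Y` a generic `n_L × n_0` matrix: the trace of a product of generic
matrices.

The local motivic zeta function `𝕃 ^ (-m) ∑_{l ≥ 1} [𝒳_l^0] 𝕃 ^ (-m l) T ^ l` of `f` at the origin
(`zetaO`), `m` the number of the variables, `𝒳_l^0` the set of the `l`-jets `φ` with `φ(0) = 0` and
`ord_t f(φ) = l`, is defined in the Grothendieck ring of complex varieties, localised at `𝕃`.
No resolution is used. The jets are divided by the orders of the ideals of the entries of the
products; their recursion (`Tw3`, `t_ST3`, `t_ME`) uses as state the levels of the rows (the row `ρ` of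
the first factor which does not yet have a unit) and the columns which are left; only the entries
of the rows at their levels (heads) are divided by `t`; if a head is a unit, a shear which depends
also on entries of the next matrix moves its row to the next level. This gives the denominators
`1 - 𝕃 ^ (-ν(c)) T ^ N(c)`, where `c` runs over the chains `n_0 = c_0 ≥ c_1 ≥ ⋯ ≥ c_L` of possible ranks `c_{i+1}` of `A_0 ⋯ A_i` with some
`c_{ℓ_t+1} = 0`, `ν(c) = ∑_i (c_i - c_{i+1}) (n_{i+1} - c_{i+1})` is the codimension of the stratum and `N(c)` the sum of the `a_t` with `c_{ℓ_t+1} = 0`. The linear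
conditions on the jets of the `y` give the denominators `1 - 𝕃 ^ (-1) T ^ (a_t)`.

The proof for the roots: a functional equation of `f` gives a functional equation of the product of
the powers `I_t ^ a_t` of the ideals `I_t` of the entries of `A_0 ⋯ A_{ℓ_t}`, with the same `b`; near a
general point of the stratum of `c` the ideal `I_t` is the ideal of the stratum, which is smooth, or
the unit ideal (`t_RO`), and the blow-up of the stratum gives `b(-ν(c) / N(c)) = 0`. The roots
`-1 / a_t` come from the strict transforms. -/

namespace Pool.Agent.Results.MP_9321be_ag.MatrixProductFormsLocal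

open MvPolynomial Pool.Agent.H628R4.TP Pool.Agent.TH192.DT Pool.Agent.TH192.MT
  Pool.Agent.W428.MOT Pool.Agent.U397.TM

/-- **The motivic monodromy conjecture at the origin for `f = ∏ t, F_t ^ a t`**, `F_t` the form with the
entries of the product `A_0 ⋯ A_{ℓ t}` of generic matrices as coefficients. The finite set
`formPr n L ℓ a` of the pairs `(-ν(c), N(c))` and `(-1, a t)` has the two properties: for the pairs
`(q₁, q₂)` in it, `q₁ < 0 < q₂` and `q₁ / q₂` is a root of every `b` which satisfies a functional equation
`b(s) f ^ s = P(s) f ^ (s + 1)`, where `P(s)` is a differential operator with formal power series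
coefficients at the origin, in particular of the local Bernstein-Sato polynomial of `f` at the
origin (by the theorem of Malgrange and Kashiwara, `exp(2 π i q₁ / q₂)` is a monodromy eigenvalue of
`f` at a point in each neighbourhood of the origin); and the local motivic zeta function of `f` lies
in the ring generated by `T` and the `1 / (1 - 𝕃 ^ q₁ T ^ q₂)`. (For `T > 0`; for `T = 0` the statement is
about the constant `1`.) -/
theorem result (n : ℕ → ℕ) (L T : ℕ) (ℓ a : Fin T → ℕ) (h0 : 0 < n 0) (hn : Monotone n)
    (hℓ : ∀ t, ℓ t < L) (ha : ∀ t, 0 < a t) :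
    (∀ q ∈ formPr n L ℓ a, q.1 < 0 ∧ 0 < q.2 ∧
      ∀ b : Polynomial ℂ, IsLocalBFunction (map (Int.castRingHom ℂ) (form n L ℓ a)) b →
        b.eval ((q.1 : ℂ) / q.2) = 0) ∧
    zetaO (map (Int.castRingHom ℂ) (form n L ℓ a)) ∈
      ratRing ℂ (formPr n L ℓ a : Set (ℤ × ℤ)) :=
  ⟨fun q hq => ⟨(t_FR n L T ℓ a h0 hn hℓ ha q hq).1, (t_FR n L T ℓ a h0 hn hℓ ha q hq).2.1,
    (t_FR n L T ℓ a h0 hn hℓ ha q hq).2.2.2⟩,
    Subalgebra.mul_mem _ (rat_C (Lu ℂ) _)
      (drop_mem (t_FM ℂ n L T ℓ a hℓ ha {0} constr_zero {c | c ≠ 0} good_ne))⟩

end Pool.Agent.Results.MP_9321be_ag.MatrixProductFormsLocal
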