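import Pool.Agent.U184.NT

set_option autoImplicit false

/-! # The local motivic monodromy conjecture for germs whose tangent cones have normal crossings

Let `f t`, `t ∈ T`, be finitely many polynomials in `n ≥ 2` variables such that the tangent cones at the
origin of those hypersurfaces `f t = 0` which contain the origin are smooth away from the vertex and
cross normally there (`ConesCrossAt f 0`), let `a t ≥ 1` and `F = ∏ t, f t ^ a t`. The germ of `F` at the
origin is resolved by the blow-up of the origin (or by the identity, if the hypersurfaces cross
normally at the origin). The components are the exceptional divisor, with `ν = n` and `N` the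
multiplicity of `F` at the origin, and the (irreducible components of the) strict transforms of the
`f t = 0`, with `ν = 1` and `N = a t`; a finite set `I` of components with a map `κ` to the set
`Option T` gives these numbers. The local motivic zeta function is of the form of the formula of Denef
and Loeser `∑_J c_J ∏_{i ∈ J} 𝕃^(-ν_i) T^(N_i) / (1 - 𝕃^(-ν_i) T^(N_i))` (`dlZ`), where the sum is over the
sets `J` of components which meet the fibre over the origin, and `c_J` is a power of `𝕃` and of
`𝕃 - 1` times the class of the part of the stratum of `J` in this fibre.

The roots are in the library `Pool/Agent/U841/SN` (helper841): `pt_exc` says that `-n/d` is a root of the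
local Bernstein-Sato polynomial of `∏ t, f t ^ a t` at `p`, where `d` is its multiplicity at `p`, if the
hypersurfaces do not cross normally at `p`, for all exponents `a t ≥ 1`. See the files
`NormalCrossingTangentCones` of MP_504089_ag and MP_b07157_ag. This file draws the consequences for
the zeta functions of this problem. -/

namespace Pool.Agent.Results.MP_9321be_ag.NormalCrossingTangentCones

open MvPolynomial Pool.Agent.H628R4.TP Pool.Agent.TH192.DT Pool.Agent.U841.SN

/-- **The local motivic monodromy conjecture (with roots of the local Bernstein-Sato polynomial) for
germs of products of powers of polynomials whose tangent cones have normal crossings.** Let `p` be a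
point (for example the origin). There is a finite set `𝒮` of pairs `q₁ < 0 < q₂` for which `q₁ / q₂` is a
root of every `b` with `b(s) F ^ s = P(s) F ^ (s + 1)`, where `P(s)` is a differential operator whose
coefficients are formal (for example convergent) power series at `p`, such that every series `Z` of the
form of the formula of Denef and Loeser on the blow-up of `p` (respectively the identity), with
coefficients `c J` in a commutative ring `R` with a unit `u` (`R = 𝓜_ℂ`, `u = 𝕃`), where `c J = 0` unless
all components in `J` occur near the fibre over `p`, lies in the ring generated over `R` by `T` and the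
`1 / (1 - u ^ q₁ T ^ q₂)`, `q ∈ 𝒮`. -/
theorem result {n : ℕ} {T : Type} [Fintype T] (hn : 2 ≤ n) (f : T → MvPolynomial (Fin n) ℂ)
    (p : Fin n → ℂ) (hcone : ConesCrossAt f p) (a : T → ℕ) (ha : ∀ t, 0 < a t) :
    ∃ 𝒮 : Finset (ℤ × ℤ),
      (∀ q ∈ 𝒮, q.1 < 0 ∧ 0 < q.2 ∧ ∀ b : Polynomial ℂ,
        IsLocalBFunction (shiftP p (prodPow f a)) b → b.eval ((q.1 : ℂ) / q.2) = 0) ∧
      ∀ (I : Type) [Fintype I] (κ : I → Option T) (R : Type) [CommRing R] (u : Rˣ)
        (c : Finset {i // 0 < (mulP p f a ∘ κ) i} → R),
        (∀ J, c J ≠ 0 → ∀ i ∈ J, OverP p f (κ i.1)) →
        dlZ u (nuB n T ∘ κ) (mulP p f a ∘ κ) c ∈ ratU u (𝒮 : Set (ℤ × ℤ)) :=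
  Pool.Agent.U184.nt_loc_mot hn f p hcone a ha

end Pool.Agent.Results.MP_9321be_ag.NormalCrossingTangentCones
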