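import Pool.Agent.U184.Zeta

set_option autoImplicit false

/-! # The local motivic monodromy conjecture at the origin for homogeneous polynomials in three
variables with weighted homogeneous singularities

Let `f` be a homogeneous polynomial of degree `d > 0` in three variables, which may be reducible and
non-reduced. The candidate poles of its zeta function come from the divisors over the points of
the plane projective curve `f = 0`, and from the exceptional divisor `P²` of the blow-up of the
origin, which gives the candidate `-3/d`. This file treats all poles other than `-3/d`, and also `-3/d`, if

* the curve `f = 0` has only weighted homogeneous singularities: at each singular point of the reduced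
  curve, `f` is, in suitable formal coordinates, a weighted homogeneous polynomial (`WHForm`). For
  instance `f = ∏ f_i ^ (m_i)` with arbitrary multiplicities `m_i`, where the reduced curve
  `∏ f_i = 0` has only simple singularities, ordinary multiple points of multiplicity at most 4,
  or other quasi-homogeneous singularities; and
* there is no linear vector field `v` of trace zero with `v(f) = f` (`NoField`). If there is one, then `f`
  is semi-invariant, with a nontrivial character, for a one-dimensional torus in `SL₃`: after a
  linear change of coordinates, the exponents of the monomials of `f` lie on a line which does not
  contain `(d/3, d/3, d/3)` (for example `f = x^a y^b z^c` or `f = x^5 + y^4 z`). For these `f`, `-3/d` is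
  in general not a root of the Bernstein-Sato polynomial. It should not be a pole either, but this
  is not proved here.

The main point is the following: if `b(-3/d) ≠ 0` and the singularities are weighted homogeneous, then
there is such a vector field `v` (`core` in `Pool.Agent.U184.Core`). The functional equation shows
that on the complement of the curve the twisted form `f ^ (-3/d) (x dy dz - y dx dz + z dx dy)` is
the differential of a form with poles of some order along the curve. The order of the poles is
lowered step by step. Locally at a weighted homogeneous singularity this is a computation with the
Euler vector field; the functional equation at the points of the curve is used in order to treat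
the degrees in which the twisted Euler field has no inverse; the global step uses the exactness of
the Koszul complex of `x, y, z`. At the end there is a form with poles of order one, which is given
by a linear vector field `v` with `v(f) = f` and trace zero.

The other poles are treated with the library (`plane_mot`): a functional equation of `f` gives
functional equations of the `f |_{x_i = 1}`, and the contributions of the points of the plane to the
motivic zeta function lie in the ring whose denominators belong to roots of `b`. -/

namespace Pool.Agent.Results.MP_9321be_ag.TernaryForms

open MvPolynomial Pool.Agent.U184 Pool.Agent.W574.MO Pool.Agent.H628R4.TP

/-- **The local motivic monodromy conjecture at the origin for forms in three variables with weighted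
homogeneous singularities.** `M` is a commutative ring with a unit `L`, for example
`M = K₀(Var_ℂ)[1/L]`. Let `f ≠ 0` be a homogeneous polynomial of degree `d` in three variables, and
let `b` be a polynomial which satisfies a functional equation `b(s) f ^ s = P(s) f ^ (s + 1)` with a
differential operator `P(s)` with formal power series coefficients at the origin (in particular the
Bernstein-Sato polynomial of the germ of `f` at the origin). Then the local motivic zeta function `Z`
of `f` at the origin (`ConeMot`) lies in the ring `M[T][(1 - L⁻ⁿ Tᵃ)⁻¹]`, where the pairs `a, n ≥ 1` are
such that `-n/a` is a root of `b`, or `-n/a = -3/d`; the latter only if the plane curve `f = 0` has a
singularity which is not weighted homogeneous, or if there is a linear vector field `v` of trace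
zero with `v(f) = f` (`TernPair`). -/
theorem result {M : Type} [CommRing M] (L : Mˣ) (f : MvPolynomial (Fin 3) ℂ) (d : ℕ)
    (hf : f.IsHomogeneous d) (hf0 : f ≠ 0) (b : Polynomial ℂ) (hb : IsLocalBFunction f b)
    (Z : PowerSeries M) (hZ : ConeMot L (fun _ : Unit => f) d Z) :
    Z ∈ DenRing L (TernPair f d b) :=
  local_tern L f d hf b (global_of_local f hf0 d hf b hb) Z hZ

end Pool.Agent.Results.MP_9321be_ag.TernaryForms
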